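import Pool.Agent.Helper96.RKF.DefsL
import Pool.Agent.Helper89.RK.CVT

/-! # RKF: transfer of the curvature hypotheses -/

open Complex Metric Set Filter Topology MeasureTheory
open scoped ContDiff ComplexConjugate ComplexOrder Manifold Matrix

namespace Pool.Agent.Helper96.RKF

open Pool.Agent.Helper95.Lin Pool.Agent.Helper16.Abund Pool.Agent.Helper92.Orb
  Pool.Agent.Helper10.SP Pool.Agent.Helper95.RK Pool.Agent.Helper15.RK Pool.Agent.Helper89.RK

universe u v

theorem cvtl : S_CVTL.{v} := by
  intro n M _ _ g v T E hE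
  constructor
  · intro h σ hσ x hx h1 e h2
    have h3 := h T E hE σ hσ.differentiableOn x hx h1 e h2
    rw [sqn_eq] at h3
    exact h3
  · intro h σ hσ x hx h1
    have h3 := h T E hE σ hσ.differentiableOn x hx h1
    rw [sqn_eq] at h3
    exact h3

end Pool.Agent.Helper96.RKF
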