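import Pool.Agent.Helper96.RKF.DefsL
import Pool.Agent.Helper97.RK.FRA1

/-! # RKF: first step, Griffiths case, leaf version -/

open Complex Metric Set Filter Topology MeasureTheory
open scoped ContDiff ComplexConjugate ComplexOrder Manifold Matrix

namespace Pool.Agent.Helper96.RKF

open Pool.Agent.Helper95.Lin Pool.Agent.Helper16.Abund Pool.Agent.Helper92.Orb
  Pool.Agent.Helper10.SP Pool.Agent.Helper95.RK Pool.Agent.Helper15.RK Pool.Agent.Helper97.RK

universe u v

theorem fra1l (hWIRT : S_WIRT) (hLMF : S_LMF) (hLAK : S_LAK) (hTRP : S_TRP) (hALGG : S_ALGG)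
    (hKFE : S_KFE) (hKFB : S_KFB) (hDERK : S_DERK) (hLDM : S_LDM) (hLDG : S_LDG) (hCVK : S_CVKL)
    (hPUE : S_PUE.{u}) (hST1 : S_ST1.{u}) (hPOSK : S_POSK.{u}) (hUGL : S_UGL.{u}) :
    S_FRA1L.{u} := by
  intro b k T G _ R H Φ g hF hC
  obtain ⟨u, hu, huf⟩ := hUGL hF
  obtain ⟨κ, hκ⟩ := hPUE T R hF.ket.et
  obtain ⟨F, hF0, hF1⟩ := hST1 hF κ hκ u hu
  have hT : IsOpen T := hF.ket.et.isOpen
  -- the facts in a frame
  have frame : ∀ (W : Set (Cn (b + k))) (L : Cn (b + k) →ₗ[ℂ] Cn k) (w : Fin b → Cn (b + k))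
      (v : Fin k → Cn (b + k) → Cn (b + k)), KFr Φ W L w v → W ⊆ T → ∀ x ∈ W,
      (∀ α β, LF v u x α β = Matrix.trace (Tm (v α) x * mc (Tm (v β) x)) -
        ∑ γ, ∑ δ, (gram g v x)⁻¹ δ γ * CRV g v x α β γ δ) ∧
      (∀ c : Cn k, (Matrix.trace (Tc v x c * mc (Tc v x c))).im = 0 ∧
        0 ≤ (Matrix.trace (Tc v x c * mc (Tc v x c))).re ∧
        (Matrix.trace (Tc v x c * mc (Tc v x c)) = 0 → Tc v x c = 0)) ∧
      (∀ c : Cn k, (hermi (Matrix.of fun α β => ∑ γ, ∑ δ, (gram g v x)⁻¹ δ γ *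
          CRV g v x α β γ δ) c c).im = 0 ∧
        (hermi (Matrix.of fun α β => ∑ γ, ∑ δ, (gram g v x)⁻¹ δ γ *
          CRV g v x α β γ δ) c c).re ≤ 0) ∧
      ((∀ α β, ∑ γ, ∑ δ, (gram g v x)⁻¹ δ γ * CRV g v x α β γ δ = 0) →
        ∀ α β γ δ, CRV g v x α β γ δ = 0) ∧
      (∀ c : Cn k, hermi (LF v u x) c c = Matrix.trace (Tc v x c * mc (Tc v x c)) -
        hermi (Matrix.of fun α β => ∑ γ, ∑ δ, (gram g v x)⁻¹ δ γ *
          CRV g v x α β γ δ) c c) ∧ 0 < dens Φ H w v x ∧ (gram H v x).PosDef := by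
    intro W L w v hK hWT x hx
    have hg : ∀ i j, ContDiffOn ℝ ∞ (fun x => g x i j) W := fun i j => (hF.smg i j).mono hWT
    have hgp : ∀ x ∈ W, (g x).PosDef := fun x hx => hF.posg x (hWT hx)
    have a1 := lf_eq hWIRT hKFB hLDM hLDG hK hg hgp (hu.1.mono hWT)
      (fun y hy => huf W L w v hK hWT y hy) hx
    obtain ⟨m1, m2, p1, p2, -, hGr⟩ := hKFB hK
    obtain ⟨gs, gp⟩ := hGr g hg
    obtain ⟨-, Hp⟩ := hGr H fun i j => (hF.ket.smooth i j).mono hWT
    have gp := gp hgp x hx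
    have Hp := Hp (fun x hx => hF.ket.posDef x (hWT hx)) x hx
    have hcv := (hCVK hK g hg hgp).1 (fun σ hσ y hy => hC σ hσ y (hWT hy)) x hx
    have hldg := hLDG hK g hg hgp x hx
    have halg := hALGG (gram g v x) (fun α γ δ => Dv (v α) (fun y => gram g v y γ δ) x)
      (fun α β γ δ => DD v α β (fun y => gram g v y γ δ) x) (CRV g v x) gp.1
      (fun α β γ δ => (hldg α β).2.1 γ δ) (fun α β γ δ => by
        rw [CRV]
        congr 1
        refine Finset.sum_congr rfl fun p _ => Finset.sum_congr rfl fun q _ => ?_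
        rw [(hldg α β).1 p δ]) (fun c s a => by
        have h1 := hcv c s a
        rw [Qcv] at h1
        have h2 : ∀ β γ δ, Dvb (v β) (fun y => gram g v y γ δ) x =
            conj (Dv (v β) (fun y => gram g v y δ γ) x) := fun β γ δ => (hldg β β).1 γ δ
        simp only [h2] at h1
        exact h1)
    refine ⟨a1, tc_pos hLMF hLAK hDERK hK hx, halg.1, halg.2, ?_, ?_, Hp.1⟩
    · intro c
      rw [trace_Tc]
      simp only [hermi, Matrix.of_apply]
      rw [← Finset.sum_sub_distrib]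
      refine Finset.sum_congr rfl fun α _ => ?_
      rw [← Finset.sum_sub_distrib]
      refine Finset.sum_congr rfl fun β _ => ?_
      rw [a1 α β]
      ring
    · rw [dens]
      have h3 := norm_pos_iff.2 (p1 x hx)
      exact div_pos (mul_pos (m1 x hx).2 Hp.2.2) (by positivity)
  have hmn : ∀ (W : Set (Cn (b + k))) (L : Cn (b + k) →ₗ[ℂ] Cn k) (w : Fin b → Cn (b + k))
      (v : Fin k → Cn (b + k) → Cn (b + k)), KFr Φ W L w v → W ⊆ T → ∀ x ∈ W,
      0 ≤ (Matrix.trace ((gram H v x)⁻¹ * LF v u x)).re ∧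
      ((Matrix.trace ((gram H v x)⁻¹ * LF v u x)).re = 0 → LF v u x = 0) := by
    intro W L w v hK hWT x hx
    obtain ⟨a1, a2, a3, -, a5, -, a7⟩ := frame W L w v hK hWT x hx
    refine (hTRP (gram H v x) (LF v u x) a7 fun c => ?_).2
    rw [a5 c, Complex.sub_im, Complex.sub_re, (a2 c).1, (a3 c).1]
    refine ⟨sub_self _, ?_⟩
    have := (a2 c).2.1
    have := (a3 c).2
    linarith
  -- `F` is nonnegative
  have hFn : ∀ x ∈ T, 0 ≤ F x := by
    intro x hx
    obtain ⟨W', L, w, v, hW'T, hxW', hK⟩ := hKFE T hT Φ hF.smP hF.rank x hx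
    rw [hF1 W' L w v hK hW'T x hxW']
    exact mul_nonneg (frame W' L w v hK hW'T x hxW').2.2.2.2.2.1.le
      (hmn W' L w v hK hW'T x hxW').1
  have hFz := hPOSK hF.ket.et κ hκ F hF0 hFn
  intro W L w v hK hWT x hx
  obtain ⟨a1, a2, a3, a4, a5, a6, a7⟩ := frame W L w v hK hWT x hx
  have h1 := hF1 W L w v hK hWT x hx
  rw [hFz x (hWT hx)] at h1
  have h2 : (Matrix.trace ((gram H v x)⁻¹ * LF v u x)).re = 0 := by
    rcases mul_eq_zero.1 h1.symm with h | h
    · exact absurd h a6.ne'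
    · exact h
  have h3 := (hmn W L w v hK hWT x hx).2 h2
  have hT0 : ∀ α, Tm (v α) x = 0 := by
    intro α
    have h4 := a5 (Pi.single α 1)
    rw [h3] at h4
    have h5 : hermi (0 : Matrix (Fin k) (Fin k) ℂ) (Pi.single α 1) (Pi.single α 1) = 0 := by
      simp [hermi]
    rw [h5] at h4
    have b2 := a2 (Pi.single α 1)
    have b3 := a3 (Pi.single α 1)
    have h6 := congrArg Complex.re h4
    rw [Complex.zero_re, Complex.sub_re] at h6
    have h7 : Matrix.trace (Tc v x (Pi.single α 1) * mc (Tc v x (Pi.single α 1))) = 0 := by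
      apply Complex.ext
      · rw [Complex.zero_re]
        linarith [b2.2.1, b3.2]
      · rw [Complex.zero_im]
        exact b2.1
    have h8 := b2.2.2 h7
    have h9 : Tc v x (Pi.single α 1) = Tm (v α) x := by
      rw [Tc, Finset.sum_eq_single α]
      · simp
      · intro β _ hβ
        simp [hβ]
      · intro h
        exact absurd (Finset.mem_univ α) h
    rw [← h9]
    exact h8
  refine ⟨hT0, a4 fun α β => ?_⟩
  have h10 := a1 α β
  rw [h3, hT0 α, Matrix.zero_apply, Matrix.zero_mul, Matrix.trace_zero, zero_sub] at h10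
  exact neg_eq_zero.1 h10.symm

end Pool.Agent.Helper96.RKF
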