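import Pool.Agent.Helper96.RKF.DefsL
import Pool.Agent.Helper82.RK.FRA2

/-! # RKF: first step, Kähler case, leaf version -/

open Complex Metric Set Filter Topology MeasureTheory
open scoped ContDiff ComplexConjugate ComplexOrder Manifold Matrix

namespace Pool.Agent.Helper96.RKF

open Pool.Agent.Helper95.Lin Pool.Agent.Helper16.Abund Pool.Agent.Helper92.Orb
  Pool.Agent.Helper10.SP Pool.Agent.Helper95.RK Pool.Agent.Helper15.RK Pool.Agent.Helper82.RK

universe u v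

/-- The main computation in a frame. -/
theorem frame_mainl (hWIRT : S_WIRT) (hLMF : S_LMF) (hLAK : S_LAK) (hTRP : S_TRP)
    (hALGH : S_ALGH) (hKFB : S_KFB) (hDERK : S_DERK) (hLDM : S_LDM) (hLDG : S_LDG)
    (hCVK : S_CVKL) (hEXG : S_EXG) {b k : ℕ}
    {Φ : Cn (b + k) → ℝ} {W : Set (Cn (b + k))} {L : Cn (b + k) →ₗ[ℂ] Cn k}
    {w : Fin b → Cn (b + k)} {v : Fin k → Cn (b + k) → Cn (b + k)} (hK : KFr Φ W L w v)
    {H : Cn (b + k) → Matrix (Fin (b + k)) (Fin (b + k)) ℂ}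
    (hg : ∀ i j, ContDiffOn ℝ ∞ (fun x => H x i j) W) (hgp : ∀ x ∈ W, (H x).PosDef)
    (hcl : ∀ x ∈ W, ∀ i j l, cd l (fun y => H y i j) x = cd i (fun y => H y l j) x)
    (hCv : CvHL Φ H W)
    {f : Cn (b + k) → ℝ} (hf : ContDiffOn ℝ ∞ f W) (hfu : ∀ x ∈ W, f x = uf Φ H w v x)
    {x : Cn (b + k)} (hx : x ∈ W) :
    0 < dens Φ H w v x ∧ 0 ≤ (Matrix.trace ((gram H v x)⁻¹ * LF v f x)).re ∧
    ((Matrix.trace ((gram H v x)⁻¹ * LF v f x)).re = 0 → (∀ α, Tm (v α) x = 0) ∧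
      ∀ α β γ δ, CRV H v x α β γ δ = 0) := by
  have hO := hK.isOpen
  obtain ⟨h1, h2, h3, h4, -, h6⟩ := hKFB hK
  obtain ⟨h7, h8⟩ := h6 H hg
  have h9 := h8 hgp
  have hdens : 0 < dens Φ H w v x := by
    unfold dens
    have := h3 x hx
    exact div_pos (mul_pos (h1 x hx).2 (h9 x hx).2.2) (by positivity)
  have hG := (h9 x hx).1
  -- the torsion vanishes
  have hTRN : ∀ y ∈ W, ∀ α γ δ, TRN H v y α γ δ = 0 := by
    intro y hy α γ δ
    rw [(hEXG hK H hg y hy α γ).1 δ]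
    refine Finset.sum_eq_zero fun i _ => Finset.sum_eq_zero fun m _ =>
      Finset.sum_eq_zero fun l _ => ?_
    rw [hcl y hy m l i, sub_self, mul_zero]
  have hsym : ∀ y ∈ W, ∀ α γ δ, Dv (v α) (fun z => gram H v z γ δ) y =
      Dv (v γ) (fun z => gram H v z α δ) y := by
    intro y hy α γ δ
    have := hTRN y hy α γ δ
    unfold TRN at this
    exact sub_eq_zero.1 this
  have hcomm := (hDERK hK x hx).2.2.2.1
  have hA := hALGH (gram H v x) (fun α γ δ => Dv (v α) (fun y => gram H v y γ δ) x)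
    (fun α β γ δ => DD v α β (fun y => gram H v y γ δ) x)
    (fun α β γ δ => CRV H v x α β γ δ) hG
    (fun α β γ δ => (hLDG hK H hg hgp x hx α β).2.1 γ δ)
    (fun α γ δ => hsym x hx α γ δ)
    (by
      intro α β γ δ
      unfold DD
      rw [(hcomm _ (h7 γ δ) α β).1, (hcomm _ (h7 α δ) γ β).1]
      refine dvb_congr ?_ _
      filter_upwards [hO.mem_nhds hx] with y hy
      exact hsym y hy α γ δ)
    (by
      intro α β γ δ
      unfold CRV
      congr 1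
      refine Finset.sum_congr rfl fun p _ => Finset.sum_congr rfl fun q _ => ?_
      rw [(hLDG hK H hg hgp x hx α β).1 p δ])
    (by
      intro s a
      have := (hCVK hK H hg hgp).2 hCv x hx s a
      unfold Qcv at this
      have e1 : (∑ β, ∑ γ, ∑ δ, conj (s β) * a γ * conj (s δ) *
          Dvb (v β) (fun y => gram H v y γ δ) x) =
          ∑ β, ∑ γ, ∑ δ, conj (s β) * a γ * conj (s δ) *
          conj (Dv (v β) (fun y => gram H v y δ γ) x) := by
        refine Finset.sum_congr rfl fun β _ => Finset.sum_congr rfl fun γ _ =>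
          Finset.sum_congr rfl fun δ _ => ?_
        rw [(hLDG hK H hg hgp x hx β β).1 γ δ]
      rw [e1] at this
      exact this)
  obtain ⟨-, hS2, hS3⟩ := hA
  obtain ⟨hT1, hT2, hT3⟩ := hTRP (gram H v x) (TT v x) hG (by
    intro c
    rw [hermi_TT]
    have := lak_frame hLMF hLAK hDERK hK hx c
    exact ⟨this.1, this.2.1⟩)
  have htr : Matrix.trace ((gram H v x)⁻¹ * LF v f x) =
      Matrix.trace ((gram H v x)⁻¹ * TT v x) -
      ∑ α, ∑ β, ∑ γ, ∑ δ, (gram H v x)⁻¹ β α * (gram H v x)⁻¹ δ γ * CRV H v x α β γ δ := by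
    simp only [Matrix.trace, Matrix.diag_apply, Matrix.mul_apply]
    rw [Finset.sum_comm (f := fun α β => ∑ γ, ∑ δ, (gram H v x)⁻¹ β α * (gram H v x)⁻¹ δ γ *
      CRV H v x α β γ δ), ← Finset.sum_sub_distrib]
    refine Finset.sum_congr rfl fun β _ => ?_
    rw [← Finset.sum_sub_distrib]
    refine Finset.sum_congr rfl fun α _ => ?_
    rw [lf_eq hWIRT hKFB hLDM hLDG hK hg hgp hf hfu hx α β, mul_sub, Finset.mul_sum]
    congr 1
    refine Finset.sum_congr rfl fun γ _ => ?_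
    rw [Finset.mul_sum]
    refine Finset.sum_congr rfl fun δ _ => ?_
    ring
  rw [htr, Complex.sub_re]
  refine ⟨hdens, by linarith, fun h0 => ?_⟩
  have e1 : (Matrix.trace ((gram H v x)⁻¹ * TT v x)).re = 0 := by linarith
  have e2 : (∑ α, ∑ β, ∑ γ, ∑ δ, (gram H v x)⁻¹ β α * (gram H v x)⁻¹ δ γ *
    CRV H v x α β γ δ).re = 0 := by linarith
  refine ⟨fun α => ?_, hS3 e2⟩
  have h10 := hT3 e1
  have h11 := (lak_frame hLMF hLAK hDERK hK hx (Pi.single α 1)).2.2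
  have h12 : ∑ γ, (Pi.single α 1 : Cn k) γ • Tm (v γ) x = Tm (v α) x := by
    rw [Finset.sum_eq_single α]
    · rw [Pi.single_eq_same, one_smul]
    · intro γ _ hγ
      rw [Pi.single_eq_of_ne hγ, zero_smul]
    · intro h; exact absurd (Finset.mem_univ _) h
  rw [h12] at h11
  refine h11 ?_
  have h13 : TT v x α α = 0 := by rw [h10]; rfl
  exact h13

/-- FRA2L. -/
theorem fra2l (hWIRT : S_WIRT) (hLMF : S_LMF) (hLAK : S_LAK) (hTRP : S_TRP) (hALGH : S_ALGH)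
    (hKFE : S_KFE) (hKFB : S_KFB) (hDERK : S_DERK) (hLDM : S_LDM) (hLDG : S_LDG) (hCVK : S_CVKL)
    (hEXG : S_EXG) (hPUE : S_PUE.{u}) (hST1 : S_ST1.{u}) (hPOSK : S_POSK.{u})
    (hUGL : S_UGL.{u}) : S_FRA2L.{u} := by
  intro b k T G _ R H Φ hF hC
  obtain ⟨κ, hκ⟩ := hPUE T R hF.ket.et
  obtain ⟨f, hf, hfu⟩ := hUGL hF
  obtain ⟨F, hDz, hF2⟩ := hST1 hF κ hκ f hf
  have hTo := hF.ket.et.isOpen
  have main : ∀ (W : Set (Cn (b + k))) (L : Cn (b + k) →ₗ[ℂ] Cn k) (w : Fin b → Cn (b + k))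
      (v : Fin k → Cn (b + k) → Cn (b + k)), KFr Φ W L w v → W ⊆ T → ∀ x ∈ W,
      0 < dens Φ H w v x ∧ 0 ≤ (Matrix.trace ((gram H v x)⁻¹ * LF v f x)).re ∧
      ((Matrix.trace ((gram H v x)⁻¹ * LF v f x)).re = 0 → (∀ α, Tm (v α) x = 0) ∧
        ∀ α β γ δ, CRV H v x α β γ δ = 0) := by
    intro W L w v hK hWT x hx
    exact frame_mainl hWIRT hLMF hLAK hTRP hALGH hKFB hDERK hLDM hLDG hCVK hEXG hK
      (fun i j => (hF.ket.smooth i j).mono hWT) (fun x hx => hF.ket.posDef x (hWT hx))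
      (fun x hx => hF.ket.closed x (hWT hx))
      (fun σ hσ x hx h => hC σ hσ x (hWT hx) h) (hf.1.mono hWT) (hfu W L w v hK hWT) hx
  have hpos : ∀ x ∈ T, 0 ≤ F x := by
    intro x hx
    obtain ⟨W, L, w, v, hWT, hxW, hK⟩ := hKFE T hTo Φ hF.smP hF.rank x hx
    obtain ⟨h1, h2, -⟩ := main W L w v hK hWT x hxW
    rw [hF2 W L w v hK hWT x hxW]
    exact mul_nonneg h1.le h2
  have hz := hPOSK hF.ket.et κ hκ F hDz hpos
  intro W L w v hK hWT x hx
  obtain ⟨h1, -, h3⟩ := main W L w v hK hWT x hx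
  refine h3 ?_
  have h4 := hF2 W L w v hK hWT x hx
  rw [hz x (hWT hx)] at h4
  rcases mul_eq_zero.1 h4.symm with h5 | h5
  · exact absurd h5 h1.ne'
  · exact h5

end Pool.Agent.Helper96.RKF
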