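import Pool.Agent.Helper96.RKF.DefsL
import Pool.Agent.Helper40.RK.FRD

/-! # RKF: the conclusion in an arbitrary parametrization -/

open Complex Metric Set Filter Topology MeasureTheory
open scoped ContDiff ComplexConjugate ComplexOrder Manifold Matrix

namespace Pool.Agent.Helper96.RKF

open Pool.Agent.Helper95.Lin Pool.Agent.Helper16.Abund Pool.Agent.Helper92.Orb
  Pool.Agent.Helper10.SP Pool.Agent.Helper95.RK Pool.Agent.Helper15.RK Pool.Agent.Helper40.RK

universe u v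

/-- FRDL. -/
theorem frdl (hWIRT : S_WIRT) (hMTK : S_MTK.{u, v}) (hCVT : S_CVTL.{v}) (hFRA1 : S_FRA1L.{u})
    (hFRA2 : S_FRA2L.{u}) (hFRB : S_FRB.{u}) (hFRC : S_FRC.{u}) : S_FRDL.{u, v} := by
  intro b k G M _ _ _ _ _ _ _ h g v hk hD hF V ψ hψ W L w e hfr hWV
  -- the conclusion near each point
  have key : ∀ x ∈ W, ∃ (E : Cn (b + k) → M) (T : Set (Cn (b + k))) (r : ℝ), 0 < r ∧
      ball x r ⊆ T ∧ EqOn E ψ (ball x r) ∧ Flt (lpot (b + k) v E) (pm (b + k) g E) T ∧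
      ∃ (R : G → Cn (b + k) → Cn (b + k) → Prop)
        (H : Cn (b + k) → Matrix (Fin (b + k)) (Fin (b + k)) ℂ),
        FrT T R H (lpot (b + k) v E) (pm (b + k) g E) := by
    intro x hx
    obtain ⟨hg, hgi, hc⟩ := hF
    rcases hc with hc | ⟨hK, hc⟩
    · obtain ⟨r, T, E, hr, -, hrT, hE, hP, hT⟩ := hMTK hk hD hg hgi V ψ hψ x (hWV hx)
      exact ⟨E, T, r, hr, hrT, hE, hFRA1 hT ((hCVT T E hP).1 hc), _, _, hT⟩
    · have hD' : DataK b k G M g v := ⟨hD.act, hD.proper, hK, hgi, hD.met, hD.vinv, hD.rank⟩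
      obtain ⟨r, T, E, hr, -, hrT, hE, hP, hT⟩ := hMTK hk hD' hg hgi V ψ hψ x (hWV hx)
      exact ⟨E, T, r, hr, hrT, hE, hFRA2 hT ((hCVT T E hP).2 hc), _, _, hT⟩
  have key2 : ∀ x ∈ W, (∀ α, Tm (e α) x = 0) ∧
      (∀ α γ δ, TRN (pm (b + k) g ψ) e x α γ δ = 0) ∧
      (∀ α β γ δ, CRV (pm (b + k) g ψ) e x α β γ δ = 0) ∧
      ∀ α, Dv (e α) (fun y => ((uf (lpot (b + k) v ψ) (pm (b + k) g ψ) w e y : ℝ) : ℂ)) x = 0 := by
    intro x hx
    obtain ⟨E, T, r, hr, hrT, hE, hflt, R, H, hT⟩ := key x hx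
    have hgerm : ∀ y ∈ ball x r, E =ᶠ[𝓝 y] ψ := by
      intro y hy
      filter_upwards [isOpen_ball.mem_nhds hy] with z hz using hE hz
    have hfr' : KFr (lpot (b + k) v E) (W ∩ ball x r) L w e :=
      kfr_congr hfr (hfr.isOpen.inter isOpen_ball) inter_subset_left
        fun y hy => (glpot_congr v (hgerm y hy.2)).symm
    have hxm : x ∈ W ∩ ball x r := ⟨hx, mem_ball_self hr⟩
    have hsub : W ∩ ball x r ⊆ T := inter_subset_right.trans hrT
    have hpm : pm (b + k) g E =ᶠ[𝓝 x] pm (b + k) g ψ := by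
      filter_upwards [isOpen_ball.mem_nhds (mem_ball_self hr)] with y hy
      exact gpm_congr g (hgerm y hy)
    have hlp : lpot (b + k) v E =ᶠ[𝓝 x] lpot (b + k) v ψ := by
      filter_upwards [isOpen_ball.mem_nhds (mem_ball_self hr)] with y hy
      exact glpot_congr v (hgerm y hy)
    obtain ⟨h1, h2⟩ := hflt _ L w e hfr' hsub x hxm
    refine ⟨h1, ?_, ?_, ?_⟩
    · intro α γ δ
      rw [← gTRN_congr e hpm]
      exact hFRC hT hflt _ L w e hfr' hsub x hxm α γ δ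
    · intro α β γ δ
      rw [← gCRV_congr e hpm]
      exact h2 α β γ δ
    · intro α
      have h3 := hFRB hT hflt _ L w e hfr' hsub x hxm α
      have h4 : (fun y => ((uf (lpot (b + k) v E) (pm (b + k) g E) w e y : ℝ) : ℂ)) =ᶠ[𝓝 x]
          fun y => ((uf (lpot (b + k) v ψ) (pm (b + k) g ψ) w e y : ℝ) : ℂ) := by
        filter_upwards [guf_congr w e hpm hlp] with y hy
        rw [hy]
      rw [← gDv_congr (e α) h4]
      exact h3
  refine ⟨?_, fun x hx => (key2 x hx).2⟩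
  intro α
  have h1 : ∀ j, DifferentiableOn ℂ (fun y => e α y j) W := by
    intro j
    have hs : ContDiffOn ℝ ∞ (fun y => e α y j) W := contDiffOn_pi.1 (hfr.smv α) j
    refine (hWIRT W hfr.isOpen _ _ hs hs).2.2.2.2.2.1 ?_
    intro l x hx
    have h2 := congrFun (congrFun ((key2 x hx).1 α) j) l
    exact h2
  exact differentiableOn_pi.2 h1

end Pool.Agent.Helper96.RKF
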