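import Pool.Agent.Helper96.RKF.CVKL
import Pool.Agent.Helper96.RKF.FRA1L
import Pool.Agent.Helper96.RKF.FRA2L
import Pool.Agent.Helper96.RKF.CVTL
import Pool.Agent.Helper96.RKF.FRDL
import Pool.Agent.Helper96.RKF.FREL
import Pool.Agent.Helper96.RKF.FRFL
import Pool.Agent.Helper15.RK.AsmF

/-! RKF: assembly of the front end, `t_FRONTL : S_FRONTL`. -/

namespace Pool.Agent.Helper96.RKF.Asm

open Pool.Agent.Helper10.SP.Asm Pool.Agent.Helper15.RK Pool.Agent.Helper15.RK.Asm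

universe u v

theorem t_CVKL : S_CVKL := cvkl t_WIRT t_LMF t_KFB t_DERK
theorem t_FRA1L : S_FRA1L.{u} :=
  fra1l t_WIRT t_LMF t_LAK t_TRP t_ALGG t_KFE t_KFB t_DERK t_LDM t_LDG t_CVKL t_PUE t_ST1 t_POSK
    t_UGL
theorem t_FRA2L : S_FRA2L.{u} :=
  fra2l t_WIRT t_LMF t_LAK t_TRP t_ALGH t_KFE t_KFB t_DERK t_LDM t_LDG t_CVKL t_EXG t_PUE t_ST1
    t_POSK t_UGL
theorem t_CVTL : S_CVTL.{v} := cvtl
theorem t_FRDL : S_FRDL.{u, v} :=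
  frdl t_WIRT t_MTK t_CVTL t_FRA1L t_FRA2L t_FRB t_FRC
theorem t_FREL : S_FREL.{u, v} := frel t_WCH t_LMF t_KFE t_DERK t_FRDL t_STRK
theorem t_FRFL : S_FRFL.{u, v} := frfl t_WIRT t_LMF t_KFB t_DERK t_FRDL
theorem t_FRONTL : S_FRONTL.{u, v} := frontl t_FREL t_FRFL

end Pool.Agent.Helper96.RKF.Asm
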