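import Pool.Agent.Helper96.RKF.DefsL
import Pool.Agent.Helper94.RK.CVK
import Pool.Agent.Helper40.RK.FRD

/-! # RKF: the curvature inequality in frames, leaf version -/

open Complex Metric Set Filter Topology MeasureTheory
open scoped ContDiff ComplexConjugate ComplexOrder Manifold Matrix

namespace Pool.Agent.Helper96.RKF

open Pool.Agent.Helper95.Lin Pool.Agent.Helper16.Abund Pool.Agent.Helper92.Orb
  Pool.Agent.Helper10.SP Pool.Agent.Helper95.RK Pool.Agent.Helper15.RK Pool.Agent.Helper94.RK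

/-- An affine vector field. -/
theorem sigL {n : ℕ} (ξ x : Cn n) (Λ : Cn n →ₗ[ℂ] Cn n) :
    Differentiable ℂ (fun y : Cn n => ξ + Λ (y - x)) ∧
    (∀ e i y, Dvb (fun _ => e) (fun y : Cn n => (ξ + Λ (y - x)) i) y = 0) ∧
    (∀ e i y, Dv (fun _ => e) (fun y : Cn n => (ξ + Λ (y - x)) i) y = 2 * Λ e i) ∧
    ∀ i, ContDiff ℝ ∞ (fun y : Cn n => (ξ + Λ (y - x)) i) := by
  obtain ⟨Λc, hΛc⟩ : ∃ Λc : Cn n →L[ℂ] Cn n, Λc = Λ.toContinuousLinearMap := ⟨_, rfl⟩
  have hΛ : ∀ u, Λc u = Λ u := fun u => by rw [hΛc]; rfl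
  have h3 : ∀ i, (fun y : Cn n => (ξ + Λ (y - x)) i) =
      fun y => (ξ i - Λ x i) + ((ContinuousLinearMap.proj (R := ℂ)
        (φ := fun _ : Fin n => ℂ) i).comp Λc) y := by
    intro i
    funext y
    rw [ContinuousLinearMap.comp_apply, ContinuousLinearMap.proj_apply, hΛ, Pi.add_apply,
      map_sub, Pi.sub_apply]
    ring
  have hf : ∀ i (y u : Cn n), fderiv ℝ (fun y : Cn n => (ξ + Λ (y - x)) i) y u = Λ u i := by
    intro i y u
    have h1 : HasFDerivAt (𝕜 := ℝ) (fun y : Cn n => (ξ + Λ (y - x)) i)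
        (((ContinuousLinearMap.proj (R := ℂ) (φ := fun _ : Fin n => ℂ) i).comp
          Λc).restrictScalars ℝ) y := by
      have h2 : HasFDerivAt (𝕜 := ℂ) (fun y : Cn n => (ξ + Λ (y - x)) i)
          ((ContinuousLinearMap.proj (R := ℂ) (φ := fun _ : Fin n => ℂ) i).comp Λc) y := by
        rw [h3]
        exact (ContinuousLinearMap.hasFDerivAt _).const_add _
      exact h2.restrictScalars ℝ
    rw [h1.fderiv, ← hΛ]
    rfl
  have hI : ∀ (l : Fin n) i, Λ (Pi.single l I) i = I * Λ (Pi.single l 1) i := by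
    intro l i
    have h5 : (Pi.single l I : Cn n) = I • Pi.single l (1 : ℂ) := by
      rw [← Pi.single_smul, smul_eq_mul, mul_one]
    rw [h5, map_smul]
    rfl
  refine ⟨?_, ?_, ?_, fun i => ?_⟩
  · have h4 : (fun y : Cn n => ξ + Λ (y - x)) = fun y => ξ + Λc (y - x) := by
      funext y; rw [hΛ]
    rw [h4]
    fun_prop
  · intro e i y
    unfold Dvb cdb
    refine Finset.sum_eq_zero fun l _ => ?_
    rw [hf, hf, hI]
    have : Λ (Pi.single l 1) i + I * (I * Λ (Pi.single l 1) i) = (1 + I * I) *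
        Λ (Pi.single l 1) i := by ring
    rw [this, Complex.I_mul_I]
    simp
  · intro e i y
    unfold Dv cd
    have h6 : e = ∑ l, e l • (Pi.single l (1 : ℂ) : Cn n) := by
      ext j
      simp [Finset.sum_apply, Pi.single_apply]
    have h7 : Λ e i = ∑ l, e l * Λ (Pi.single l 1) i := by
      conv_lhs => rw [h6, map_sum]
      rw [Finset.sum_apply]
      exact Finset.sum_congr rfl fun l _ => by rw [map_smul]; rfl
    rw [h7, Finset.mul_sum]
    refine Finset.sum_congr rfl fun l _ => ?_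
    rw [hf, hf, hI]
    have : Λ (Pi.single l 1) i - I * (I * Λ (Pi.single l 1) i) = (1 - I * I) *
        Λ (Pi.single l 1) i := by ring
    rw [this, Complex.I_mul_I]
    ring
  · rw [h3]
    exact contDiff_const.add (ContinuousLinearMap.contDiff
      (((ContinuousLinearMap.proj (R := ℂ) (φ := fun _ : Fin n => ℂ) i).comp
        Λc).restrictScalars ℝ))

section frame

variable {b k : ℕ} {Φ : Cn (b + k) → ℝ} {W : Set (Cn (b + k))}
  {L : Cn (b + k) →ₗ[ℂ] Cn k} {w : Fin b → Cn (b + k)} {v : Fin k → Cn (b + k) → Cn (b + k)}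

theorem smX (hK : KFr Φ W L w v) (c : Cn k) (j : Fin (b + k)) :
    ContDiffOn ℝ ∞ (fun y => (∑ α, c α • v α y) j) W := by
  simp only [Finset.sum_apply, Pi.smul_apply, smul_eq_mul]
  exact ContDiffOn.sum fun α _ => contDiffOn_const.mul (contDiffOn_pi.mp (hK.smv α) j)

theorem holX (hw : S_WIRT) (hD : S_DERK) (hK : KFr Φ W L w v) (c s : Cn k) {y : Cn (b + k)}
    (hy : y ∈ W) (j : Fin (b + k)) :
    Dvb (fun y => ∑ α, c α • v α y) (fun y => (∑ γ, s γ • v γ y) j) y = 0 := by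
  have hW := hK.isOpen
  have hv : ∀ α j, ContDiffOn ℝ ∞ (fun y => v α y j) W := fun α j =>
    contDiffOn_pi.mp (hK.smv α) j
  rw [(lc1 (v := v) c _ y).2]
  refine Finset.sum_eq_zero fun β _ => ?_
  have h1 : (fun y => (∑ γ, s γ • v γ y) j) = fun y => ∑ γ, s γ * v γ y j := by
    funext y
    simp only [Finset.sum_apply, Pi.smul_apply, smul_eq_mul]
  rw [h1, (Dvs hw hW (v β) (fun γ y => s γ * v γ y j)
    (fun γ => contDiffOn_const.mul (hv γ j)) hy).2]
  have h2 : ∑ γ, Dvb (v β) (fun y => s γ * v γ y j) y = 0 := by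
    refine Finset.sum_eq_zero fun γ _ => ?_
    rw [(Dvcm hw hW (v β) (s γ) (hv γ j) hy).2, (hD hK y hy).2.1 γ β j, mul_zero]
  rw [h2, mul_zero]

theorem L_sum (hK : KFr Φ W L w v) {x : Cn (b + k)} (hx : x ∈ W) (c : Cn k) :
    L (∑ α, c α • v α x) = c := by
  rw [map_sum]
  simp only [map_smul, hK.norm x hx]
  funext β
  simp [Finset.sum_apply, Pi.single_apply]

/-- The linear part of the vector field. -/
noncomputable def Lam (L : Cn (b + k) →ₗ[ℂ] Cn k) (τ : Cn k →ₗ[ℂ] ℂ) (A : Cn (b + k))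
    (η : Fin k → Cn (b + k)) : Cn (b + k) →ₗ[ℂ] Cn (b + k) :=
  (2 : ℂ)⁻¹ • ((τ.comp L).smulRight A +
    ∑ β, (((LinearMap.proj β : (Cn k) →ₗ[ℂ] ℂ).comp L).smulRight (η β)))

theorem Lam_apply (L : Cn (b + k) →ₗ[ℂ] Cn k) (τ : Cn k →ₗ[ℂ] ℂ) (A : Cn (b + k))
    (η : Fin k → Cn (b + k)) (u : Cn (b + k)) :
    Lam L τ A η u = (2 : ℂ)⁻¹ • (τ (L u) • A + ∑ β, L u β • η β) := by
  simp [Lam, LinearMap.sum_apply]

/-- The Levi form of the square of the length of the vector field. -/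
theorem levQ (hw : S_WIRT) (hL : S_LMF) (hD : S_DERK) (hK : KFr Φ W L w v)
    {G : Cn (b + k) → Matrix (Fin (b + k)) (Fin (b + k)) ℂ}
    (hg : ∀ i j, ContDiffOn ℝ ∞ (fun x => G x i j) W) (hH : ∀ y ∈ W, (G y).IsHermitian)
    {x : Cn (b + k)} (hx : x ∈ W) (s a : Cn k) (τ : Cn k →ₗ[ℂ] ℂ) (c : Cn k) :
    lev (sqT G fun y => (∑ γ, s γ • v γ x) + Lam L τ (∑ γ, a γ • v γ x)
      (fun β i => Dv (v β) (fun y => (∑ γ, s γ • v γ y) i) x) (y - x)) x (∑ α, c α • v α x) =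
    Qcv G v x c s (τ c • a) := by
  have hW := hK.isOpen
  have hv : ∀ α j, ContDiffOn ℝ ∞ (fun y => v α y j) W := fun α j =>
    contDiffOn_pi.mp (hK.smv α) j
  have sV := smX hK
  have hVX : ∀ (c s : Cn k), ∀ y ∈ W, ∀ j, Dvb (fun y => ∑ α, c α • v α y)
      (fun y => (∑ γ, s γ • v γ y) j) y = 0 := fun c s y hy j => holX hw hD hK c s hy j
  have hc : ∀ x ∈ W, ∀ l i j, cd l (fun y => G y i j) x = conj (cdb l (fun y => G y j i) x) := by
    intro x hx l i j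
    rw [← ((hw W hW _ _ (hg j i) (hg j i)).2.2.2.1 l x hx).1]
    refine (cdc hW (fun y hy => ?_) l hx).1
    exact ((hH y hy).apply i j).symm
  obtain ⟨e, hedef⟩ : ∃ e, e = ∑ α, c α • v α x := ⟨_, rfl⟩
  obtain ⟨ξ, hξ⟩ : ∃ ξ : Cn (b + k), ξ = ∑ γ, s γ • v γ x := ⟨_, rfl⟩
  obtain ⟨A, hA⟩ : ∃ A : Cn (b + k), A = ∑ γ, (τ c • a) γ • v γ x := ⟨_, rfl⟩
  obtain ⟨η, hη⟩ : ∃ η : Cn (b + k), η = fun i => Dv (fun y => ∑ α, c α • v α y)
    (fun y => (∑ γ, s γ • v γ y) i) x := ⟨_, rfl⟩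
  obtain ⟨Λ, hΛ⟩ : ∃ Λ, Λ = Lam L τ (∑ γ, a γ • v γ x)
    (fun β i => Dv (v β) (fun y => (∑ γ, s γ • v γ y) i) x) := ⟨_, rfl⟩
  rw [← hΛ, ← hξ, ← hedef]
  have hΛe : (2 : ℂ) • Λ e = A + η := by
    rw [hΛ, Lam_apply, hedef, L_sum hK hx, smul_smul, mul_inv_cancel₀ two_ne_zero, one_smul]
    congr 1
    · rw [hA, Finset.smul_sum]
      refine Finset.sum_congr rfl fun γ _ => ?_
      rw [smul_smul]
      rfl
    · rw [hη]
      funext i
      rw [(lc1 (v := v) c _ x).1, Finset.sum_apply]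
      rfl
  obtain ⟨-, sdb, sdv, scd⟩ := sigL ξ x Λ
  obtain ⟨σ, hσ⟩ : ∃ σ : Cn (b + k) → Cn (b + k), σ = fun y : Cn (b + k) => ξ + Λ (y - x) :=
    ⟨_, rfl⟩
  rw [← hσ]
  have sdb' : ∀ i y, Dvb (fun _ => e) (fun y => σ y i) y = 0 := by
    rw [hσ]; exact sdb e
  have sdv' : ∀ i y, Dv (fun _ => e) (fun y => σ y i) y = (A + η) i := by
    intro i y
    rw [hσ, ← hΛe]
    exact sdv e i y
  have sσ : ∀ i, ContDiffOn ℝ ∞ (fun y => σ y i) W := by
    intro i
    rw [hσ]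
    exact (scd i).contDiffOn
  have hσx : σ x = ξ := by
    rw [hσ]
    simp
  -- left side
  have sF : ContDiffOn ℝ ∞ (fun y => hermi (G y) (σ y) (σ y)) W := by
    unfold hermi
    exact ContDiffOn.sum fun i _ => ContDiffOn.sum fun j _ =>
      ((hg i j).mul (sσ i)).mul (smj (sσ j))
  have sq : ContDiffOn ℝ ∞ (sqT G σ) W := Complex.reCLM.contDiff.comp_contDiffOn sF
  have l1 := (hL W hW (sqT G σ) sq).2.2.1 x hx e
  have l2 : hermi (LM (sqT G σ) x) e e =
      Dv (fun _ => e) (Dvb (fun _ => e) fun y => hermi (G y) (σ y) (σ y)) x := by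
    rw [(DvDvb hw hW (V := fun _ => e) (fun j => contDiffOn_const) sF hx
      (fun j => (Dvk _ _ x).2)).1]
    unfold hermi LM
    refine Finset.sum_congr rfl fun k _ => Finset.sum_congr rfl fun l _ => ?_
    simp only [Matrix.of_apply]
    have h1 : ∀ y ∈ W, ((sqT G σ y : ℝ) : ℂ) = hermi (G y) (σ y) (σ y) := fun y hy =>
      hre (hH y hy) (σ y)
    have h2 : cd k (cdb l fun y => ((sqT G σ y : ℝ) : ℂ)) x =
        cd k (cdb l fun y => hermi (G y) (σ y) (σ y)) x :=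
      (cdc hW (fun y hy => (cdc hW h1 l hy).2) k hx).1
    rw [h2]
    unfold hermi
    ring
  have l3 := main hw hW (V := fun _ => e) (X := σ) (fun j => contDiffOn_const) sσ
    (fun y _ j => (Dvk _ _ y).2) (fun y _ j => sdb' j y) hg hx
  have l4 : (fun i => Dv (fun _ => e) (fun y => σ y i) x) = A + η := funext fun i => sdv' i x
  rw [l4, hσx] at l3
  have l5 : lev (sqT G σ) x e = (Kf G x e ξ (A + η)).re := by
    rw [← l3, ← l2, ← l1, Complex.ofReal_re]
  rw [l5, alg (hH x hx) (hc x hx)]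
  -- right side
  have r1 := ddG hw hW hg hv c s s hx
  rw [main hw hW (sV c) (sV s) (hVX c c) (hVX c s) hg hx] at r1
  have r2 := dbG hw hW hg hv c (τ c • a) s hx
  rw [first hw hW (sV (τ c • a)) (sV s) hg hx (hVX c (τ c • a) x hx)] at r2
  have r3 := hlc (v := v) G (τ c • a) (τ c • a) x
  unfold Qcv
  rw [← r1, ← r2, ← r3, ← hedef, ← hξ, ← hA, hη]

/-- The Levi matrix of the potential vanishes on the frame. -/
theorem gram_LM (hK : KFr Φ W L w v) {y : Cn (b + k)} (hy : y ∈ W) (γ δ : Fin k) :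
    gram (LM Φ) v y γ δ = 0 := by
  unfold gram hermi
  rw [Matrix.of_apply, Finset.sum_comm]
  refine Finset.sum_eq_zero fun j _ => ?_
  rw [← Finset.sum_mul, hK.ker y hy γ j, zero_mul]

theorem Qcv_LM (hK : KFr Φ W L w v) {x : Cn (b + k)} (hx : x ∈ W) (c s a : Cn k) :
    Qcv (LM Φ) v x c s a = 0 := by
  have hW := hK.isOpen
  have h1 : ∀ β γ δ, ∀ y ∈ W, Dvb (v β) (fun y => gram (LM Φ) v y γ δ) y = 0 := by
    intro β γ δ y hy
    rw [(Dvc hW (v β) (f := fun y => gram (LM Φ) v y γ δ) (g := fun _ => 0)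
      (fun z hz => gram_LM hK hz γ δ) hy).2]
    exact (Dvk _ _ _).2
  have h2 : ∀ α β γ δ, DD v α β (fun y => gram (LM Φ) v y γ δ) x = 0 := by
    intro α β γ δ
    unfold DD
    rw [(Dvc hW (v α) (f := Dvb (v β) fun y => gram (LM Φ) v y γ δ) (g := fun _ => 0)
      (fun z hz => h1 β γ δ z hz) hx).1]
    exact (Dvk _ _ _).1
  unfold Qcv
  simp only [h2, h1 _ _ _ x hx, gram_LM hK hx, mul_zero, Finset.sum_const_zero, Complex.zero_re,
    add_zero]

end frame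

theorem cvkl (hw : S_WIRT) (hL : S_LMF) (hB : S_KFB) (hD : S_DERK) : S_CVKL := by
  intro b k Φ W L w v hK g hg hp
  have hW := hK.isOpen
  have hH : ∀ y ∈ W, (g y).IsHermitian := fun y hy => (hp y hy).isHermitian
  obtain ⟨m1, m2, m3, -⟩ := hL W hW Φ hK.smP
  have hlev := (hB hK).2.2.2.2.1
  -- the main identity
  have key : ∀ x ∈ W, ∀ c s a : Cn k, c ≠ 0 → ∃ σ : Cn (b + k) → Cn (b + k),
      Differentiable ℂ σ ∧ σ x = ∑ γ, s γ • v γ x ∧ TanL Φ σ x ∧
      lev (sqT g σ) x (∑ α, c α • v α x) = Qcv g v x c s a := by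
    intro x hx c s a hc0
    obtain ⟨j, hj⟩ : ∃ j, c j ≠ 0 := by
      by_contra hcon
      push Not at hcon
      exact hc0 (funext hcon)
    obtain ⟨τ, hτ⟩ : ∃ τ : Cn k →ₗ[ℂ] ℂ, τ c = 1 :=
      ⟨(c j)⁻¹ • (LinearMap.proj j : (Cn k) →ₗ[ℂ] ℂ), by
        rw [LinearMap.smul_apply, LinearMap.proj_apply, smul_eq_mul, inv_mul_cancel₀ hj]⟩
    obtain ⟨σ, hσ⟩ : ∃ σ : Cn (b + k) → Cn (b + k), σ = fun y => (∑ γ, s γ • v γ x) +
      Lam L τ (∑ γ, a γ • v γ x) (fun β i => Dv (v β) (fun y => (∑ γ, s γ • v γ y) i) x)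
        (y - x) := ⟨_, rfl⟩
    have hσx : σ x = ∑ γ, s γ • v γ x := by
      rw [hσ]
      simp
    have hq := levQ hw hL hD hK hg hH hx s a τ c
    rw [← hσ, hτ, one_smul] at hq
    refine ⟨σ, by rw [hσ]; exact (sigL _ _ _).1, hσx, ⟨by rw [hσx]; exact hlev x hx s, ?_⟩, hq⟩
    intro e he
    have h1 := hK.only x hx e he
    have h2 := levQ hw hL hD hK m1 m2 hx s a τ (L e)
    rw [← hσ, ← h1, Qcv_LM hK hx] at h2
    rw [← h2]
    refine Pool.Agent.Helper40.RK.glev_congr ?_ e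
    filter_upwards [hW.mem_nhds hx] with y hy
    show lev Φ y (σ y) = (hermi (LM Φ y) (σ y) (σ y)).re
    rw [← m3 y hy (σ y), Complex.ofReal_re]
  have hz : ∀ x ∈ W, ∀ s a : Cn k, 0 ≤ Qcv g v x 0 s a := by
    intro x hx s a
    have r3 := hlc (v := v) g a a x
    unfold Qcv
    rw [← r3]
    simp only [Pi.zero_apply, map_zero, zero_mul, mul_zero, Finset.sum_const_zero,
      Complex.zero_re, zero_add]
    exact hpos (hp x hx).posSemidef _
  constructor
  · intro hG x hx c s a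
    by_cases hc0 : c = 0
    · rw [hc0]; exact hz x hx s a
    · obtain ⟨σ, h1, h2, h3, h4⟩ := key x hx c s a hc0
      rw [← h4]
      exact hG σ h1 x hx h3 _ (hlev x hx c)
  · intro hG x hx s a
    by_cases hc0 : s = 0
    · rw [hc0]; exact hz x hx 0 a
    · obtain ⟨σ, h1, h2, h3, h4⟩ := key x hx s s a hc0
      rw [← h4, ← h2]
      exact hG σ h1 x hx h3

end Pool.Agent.Helper96.RKF
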