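import Pool.Agent.Helper15.RK.GoalsF

/-!
# Semipositive canonical bundles of constant rank: the curvature hypothesis on the leaves

The front end of `Helper15/RK` with a weaker hypothesis: the curvature condition is tested only on vector
fields which are tangent to the leaves to first order, so that it concerns the curvature of the metric
which `g` induces on the leaves of the kernel.
-/

open Complex Metric Set Filter Topology MeasureTheory
open scoped ContDiff ComplexConjugate ComplexOrder Manifold Matrix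

namespace Pool.Agent.Helper96.RKF

open Pool.Agent.Helper95.Lin Pool.Agent.Helper16.Abund Pool.Agent.Helper92.Orb
  Pool.Agent.Helper10.SP Pool.Agent.Helper95.RK Pool.Agent.Helper15.RK

universe u v

/-- The vector field `σ` is tangent to the leaf through `x` to first order: `σ x` is in the kernel of the
Levi form of `Φ`, and the function `lev Φ y (σ y)` of `y` vanishes to second order along the leaf. -/
def TanL {n : ℕ} (Φ : Cn n → ℝ) (σ : Cn n → Cn n) (x : Cn n) : Prop :=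
  lev Φ x (σ x) = 0 ∧ ∀ e, lev Φ x e = 0 → lev (fun y => lev Φ y (σ y)) x e = 0

/-- The bisectional curvature of the metric induced by `g` on the leaves of the kernel is nonpositive. -/
def GNegL (n : ℕ) (M : Type*) [TopologicalSpace M] [ChartedSpace (Fin n → ℂ) M]
    (g : M → Matrix (Fin n) (Fin n) ℂ) (v : M → ℝ) : Prop :=
  ∀ (V : Set (Cn n)) (ψ : Cn n → M), Par n ψ V → ∀ σ : Cn n → Cn n, DifferentiableOn ℂ σ V →
    ∀ z ∈ V, TanL (lpot n v ψ) σ z → ∀ e, lev (lpot n v ψ) z e = 0 →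
      0 ≤ lev (sqn n g ψ σ) z e

/-- The holomorphic sectional curvature of the metric induced by `g` on the leaves of the kernel is
nonpositive. -/
def HNegL (n : ℕ) (M : Type*) [TopologicalSpace M] [ChartedSpace (Fin n → ℂ) M]
    (g : M → Matrix (Fin n) (Fin n) ℂ) (v : M → ℝ) : Prop :=
  ∀ (V : Set (Cn n)) (ψ : Cn n → M), Par n ψ V → ∀ σ : Cn n → Cn n, DifferentiableOn ℂ σ V →
    ∀ z ∈ V, TanL (lpot n v ψ) σ z → 0 ≤ lev (sqn n g ψ σ) z (σ z)

/-- The hypothesis of the front end. -/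
def FrontHypL (b k : ℕ) (G : Type u) (M : Type v) [Group G] [MulAction G M] [TopologicalSpace M]
    [ChartedSpace (Fin (b + k) → ℂ) M] (g : M → Matrix (Fin (b + k)) (Fin (b + k)) ℂ)
    (v : M → ℝ) : Prop :=
  HermMetric (b + k) M g ∧ (∀ γ : G, InvMetric (b + k) g (fun y : M => γ • y)) ∧
    (GNegL (b + k) M g v ∨ (KahlerMetric (b + k) M g ∧ HNegL (b + k) M g v))

/-- The curvature hypothesis in coordinates, first version. -/
def CvGL {n : ℕ} (Φ : Cn n → ℝ) (g : Cn n → Matrix (Fin n) (Fin n) ℂ) (T : Set (Cn n)) : Prop :=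
  ∀ σ : Cn n → Cn n, Differentiable ℂ σ → ∀ x ∈ T, TanL Φ σ x →
    ∀ e, lev Φ x e = 0 → 0 ≤ lev (sqT g σ) x e

/-- The curvature hypothesis in coordinates, second version. -/
def CvHL {n : ℕ} (Φ : Cn n → ℝ) (g : Cn n → Matrix (Fin n) (Fin n) ℂ) (T : Set (Cn n)) : Prop :=
  ∀ σ : Cn n → Cn n, Differentiable ℂ σ → ∀ x ∈ T, TanL Φ σ x → 0 ≤ lev (sqT g σ) x (σ x)

/-- CVKL. The curvature inequality in frames. -/
def S_CVKL : Prop := ∀ {b k : ℕ} {Φ : Cn (b + k) → ℝ} {W : Set (Cn (b + k))}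
  {L : Cn (b + k) →ₗ[ℂ] Cn k} {w : Fin b → Cn (b + k)} {v : Fin k → Cn (b + k) → Cn (b + k)},
  KFr Φ W L w v → ∀ g : Cn (b + k) → Matrix (Fin (b + k)) (Fin (b + k)) ℂ,
  (∀ i j, ContDiffOn ℝ ∞ (fun x => g x i j) W) → (∀ x ∈ W, (g x).PosDef) →
  (CvGL Φ g W → ∀ x ∈ W, ∀ c s a : Cn k, 0 ≤ Qcv g v x c s a) ∧
  (CvHL Φ g W → ∀ x ∈ W, ∀ s a : Cn k, 0 ≤ Qcv g v x s s a)

/-- FRA1L. -/
def S_FRA1L : Prop := ∀ {b k : ℕ} {T : Set (Cn (b + k))} {G : Type u} [Group G]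
  {R : G → Cn (b + k) → Cn (b + k) → Prop}
  {H : Cn (b + k) → Matrix (Fin (b + k)) (Fin (b + k)) ℂ} {Φ : Cn (b + k) → ℝ}
  {g : Cn (b + k) → Matrix (Fin (b + k)) (Fin (b + k)) ℂ}, FrT T R H Φ g → CvGL Φ g T →
  Flt Φ g T

/-- FRA2L. -/
def S_FRA2L : Prop := ∀ {b k : ℕ} {T : Set (Cn (b + k))} {G : Type u} [Group G]
  {R : G → Cn (b + k) → Cn (b + k) → Prop}
  {H : Cn (b + k) → Matrix (Fin (b + k)) (Fin (b + k)) ℂ} {Φ : Cn (b + k) → ℝ},
  FrT T R H Φ H → CvHL Φ H T → Flt Φ H T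

/-- CVTL. Transfer of the curvature hypotheses. -/
def S_CVTL : Prop := ∀ {n : ℕ} {M : Type v} [TopologicalSpace M] [ChartedSpace (Fin n → ℂ) M]
  {g : M → Matrix (Fin n) (Fin n) ℂ} {v : M → ℝ} (T : Set (Cn n)) (E : Cn n → M), Par n E T →
  (GNegL n M g v → CvGL (lpot n v E) (pm n g E) T) ∧
    (HNegL n M g v → CvHL (lpot n v E) (pm n g E) T)

/-- FRDL. The conclusion in an arbitrary parametrization. -/
def S_FRDL : Prop := ∀ {b k : ℕ} {G : Type u} {M : Type v} [Group G] [MulAction G M]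
  [TopologicalSpace M] [T2Space M] [ConnectedSpace M] [ChartedSpace (Fin (b + k) → ℂ) M]
  [IsManifold 𝓘(ℂ, Fin (b + k) → ℂ) ω M] {h g : M → Matrix (Fin (b + k)) (Fin (b + k)) ℂ}
  {v : M → ℝ}, 0 < k → DataK b k G M h v → FrontHypL b k G M g v →
  ∀ (V : Set (Cn (b + k))) (ψ : Cn (b + k) → M), Par (b + k) ψ V →
  ∀ (W : Set (Cn (b + k))) (L : Cn (b + k) →ₗ[ℂ] Cn k) (w : Fin b → Cn (b + k))
    (e : Fin k → Cn (b + k) → Cn (b + k)), KFr (lpot (b + k) v ψ) W L w e → W ⊆ V →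
    (∀ α, DifferentiableOn ℂ (e α) W) ∧ ∀ x ∈ W,
    (∀ α γ δ, TRN (pm (b + k) g ψ) e x α γ δ = 0) ∧
    (∀ α β γ δ, CRV (pm (b + k) g ψ) e x α β γ δ = 0) ∧
    ∀ α, Dv (e α) (fun y => ((uf (lpot (b + k) v ψ) (pm (b + k) g ψ) w e y : ℝ) : ℂ)) x = 0

/-- FREL. Foliated charts. -/
def S_FREL : Prop := ∀ {b k : ℕ} {G : Type u} {M : Type v} [Group G] [MulAction G M]
  [TopologicalSpace M] [T2Space M] [ConnectedSpace M] [ChartedSpace (Fin (b + k) → ℂ) M]
  [IsManifold 𝓘(ℂ, Fin (b + k) → ℂ) ω M] {h g : M → Matrix (Fin (b + k)) (Fin (b + k)) ℂ}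
  {v : M → ℝ}, 0 < k → DataK b k G M h v → FrontHypL b k G M g v → ∀ p : M,
  ∃ r > 0, ∃ ψ : Cn (b + k) → M, FolPar v (ball (0 : Cn b) r) (ball (0 : Cn k) r) ψ ∧
    InjOn ψ (prodK (ball (0 : Cn b) r) (ball (0 : Cn k) r)) ∧ ψ 0 = p

/-- FRFL. The leaf metric in foliated charts. -/
def S_FRFL : Prop := ∀ {b k : ℕ} {G : Type u} {M : Type v} [Group G] [MulAction G M]
  [TopologicalSpace M] [T2Space M] [ConnectedSpace M] [ChartedSpace (Fin (b + k) → ℂ) M]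
  [IsManifold 𝓘(ℂ, Fin (b + k) → ℂ) ω M] {h g : M → Matrix (Fin (b + k)) (Fin (b + k)) ℂ}
  {v : M → ℝ}, 0 < k → DataK b k G M h v → FrontHypL b k G M g v →
  ∀ (U : Set (Cn b)) (Δ : Set (Cn k)) (ψ : Cn (b + k) → M), IsOpen U → IsOpen Δ →
    FolPar v U Δ ψ → FlatG (prodK U Δ) (gm g ψ) (lpot (b + k) v ψ)

/-- FRONTL. The conclusion of the front end. -/
def S_FRONTL : Prop := ∀ {b k : ℕ} {G : Type u} {M : Type v} [Group G] [MulAction G M]
  [TopologicalSpace M] [T2Space M] [ConnectedSpace M] [ChartedSpace (Fin (b + k) → ℂ) M]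
  [IsManifold 𝓘(ℂ, Fin (b + k) → ℂ) ω M] {h g : M → Matrix (Fin (b + k)) (Fin (b + k)) ℂ}
  {v : M → ℝ}, 0 < k → DataK b k G M h v → FrontHypL b k G M g v → FlatFol b k G M g v

/-- FRONTL from FREL and FRFL. -/
theorem frontl (hE : S_FREL.{u, v}) (hF : S_FRFL.{u, v}) : S_FRONTL.{u, v} := by
  intro b k G M _ _ _ _ _ _ _ h g v hk hd hf
  exact ⟨hf.1, hf.2.1, fun p => hE hk hd hf p, fun U Δ ψ hU hΔ hψ => hF hk hd hf U Δ ψ hU hΔ hψ⟩

end Pool.Agent.Helper96.RKF
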