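import Pool.Agent.Helper10.Stmt.Defs

/-!
Semipositive curvature of constant rank, and Hermitian metrics whose restrictions to the leaves of the
kernel are nonpositively curved.
-/

open Complex Set
open scoped Manifold ContDiff ComplexConjugate ComplexOrder Topology

namespace Pool.Agent.Helper96.Stmt

open Pool.Agent.Helper10.Stmt

/-- `g` is a smooth Hermitian metric on `X` (not necessarily Kähler). -/
def HermitianMetric (n : ℕ) (X : Type*) [TopologicalSpace X] [ChartedSpace (Fin n → ℂ) X]
    (g : X → Matrix (Fin n) (Fin n) ℂ) : Prop :=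
  (∀ x, (g x).PosDef) ∧ ∀ (V : Set (Fin n → ℂ)) (ψ : (Fin n → ℂ) → X), HoloOn n ψ V →
    ∀ u v, ContDiffOn ℝ ∞ (fun z => metricForm n g ψ z u v) V

/-- The curvature of the Hermitian metric of the canonical bundle given by `v` is semipositive, of
rank `n - k` at every point: in every local parametrization the Levi form of the weight is positive
semidefinite and its kernel is `k`-dimensional. -/
def SemiposCorank (n k : ℕ) (X : Type*) [TopologicalSpace X] [ChartedSpace (Fin n → ℂ) X]
    (v : X → ℝ) : Prop :=
  ∀ (V : Set (Fin n → ℂ)) (ψ : (Fin n → ℂ) → X), Par n ψ V → ∀ z ∈ V,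
    (∀ e, 0 ≤ lev (lpot n v ψ) z e) ∧
      ∃ S : Submodule ℂ (Fin n → ℂ), Module.finrank ℂ S = k ∧ ∀ e, lev (lpot n v ψ) z e = 0 ↔ e ∈ S

/-- The square of the length, for the metric `g`, of the vector field which in the parametrization `ψ`
is given by `σ`. -/
noncomputable def sqLength (n : ℕ) {X : Type*} [TopologicalSpace X] [ChartedSpace (Fin n → ℂ) X]
    (g : X → Matrix (Fin n) (Fin n) ℂ) (ψ : (Fin n → ℂ) → X) (σ : (Fin n → ℂ) → Fin n → ℂ)
    (z : Fin n → ℂ) : ℝ :=
  (herm (g (ψ z)) (dvec n ψ z (σ z)) (dvec n ψ z (σ z))).re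

/-- The local vector field `σ` is tangent to first order, at the point `z`, to the leaf through `z` of
the kernel of the curvature `θ` of `v`: `σ z` is in the kernel of `θ`, and the Levi form at `z` of the
function `θ(σ, σ) ≥ 0` vanishes on the kernel. (Along the leaf `θ(σ, σ)` is the square of the length of the
class of `σ` in the normal bundle of the leaf, a holomorphic section which vanishes at `z`; its
Levi form is the square of the length of the derivative of this section.) -/
def TangentAt (n : ℕ) {X : Type*} [TopologicalSpace X] [ChartedSpace (Fin n → ℂ) X] (v : X → ℝ)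
    (ψ : (Fin n → ℂ) → X) (σ : (Fin n → ℂ) → Fin n → ℂ) (z : Fin n → ℂ) : Prop :=
  lev (lpot n v ψ) z (σ z) = 0 ∧
    ∀ e, lev (lpot n v ψ) z e = 0 → lev (fun y => lev (lpot n v ψ) y (σ y)) z e = 0

/-- The metrics which `g` induces on the leaves of the kernel of the curvature of `v` have nonpositive
bisectional curvature (Chern connection): for every local holomorphic vector field `σ` and every point
where it is tangent to the leaf to first order, the Levi form of `|σ|²` is nonnegative along the
leaf. -/
def LeafBisecNonpos (n : ℕ) (X : Type*) [TopologicalSpace X] [ChartedSpace (Fin n → ℂ) X]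
    (g : X → Matrix (Fin n) (Fin n) ℂ) (v : X → ℝ) : Prop :=
  ∀ (V : Set (Fin n → ℂ)) (ψ : (Fin n → ℂ) → X), Par n ψ V → ∀ σ : (Fin n → ℂ) → Fin n → ℂ,
    DifferentiableOn ℂ σ V → ∀ z ∈ V, TangentAt n v ψ σ z →
      ∀ e, lev (lpot n v ψ) z e = 0 → 0 ≤ lev (sqLength n g ψ σ) z e

/-- The metrics which `g` induces on the leaves of the kernel of the curvature of `v` have nonpositive
holomorphic sectional curvature (Chern connection): for every local holomorphic vector field `σ` and
every point where it is tangent to the leaf to first order, the Levi form of `|σ|²` is nonnegative in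
the direction of `σ`. -/
def LeafHSCNonpos (n : ℕ) (X : Type*) [TopologicalSpace X] [ChartedSpace (Fin n → ℂ) X]
    (g : X → Matrix (Fin n) (Fin n) ℂ) (v : X → ℝ) : Prop :=
  ∀ (V : Set (Fin n → ℂ)) (ψ : (Fin n → ℂ) → X), Par n ψ V → ∀ σ : (Fin n → ℂ) → Fin n → ℂ,
    DifferentiableOn ℂ σ V → ∀ z ∈ V, TangentAt n v ψ σ z → 0 ≤ lev (sqLength n g ψ σ) z (σ z)

/-- `g` is a Hermitian metric which induces on the leaves of the kernel of the curvature of `v` metrics
with nonpositive bisectional curvature, or a Kähler metric which induces on these leaves metrics with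
nonpositive holomorphic sectional curvature. -/
def LeafNonpos (n : ℕ) (X : Type*) [TopologicalSpace X] [ChartedSpace (Fin n → ℂ) X]
    (g : X → Matrix (Fin n) (Fin n) ℂ) (v : X → ℝ) : Prop :=
  HermitianMetric n X g ∧ LeafBisecNonpos n X g v ∨ KahlerMetric n X g ∧ LeafHSCNonpos n X g v

end Pool.Agent.Helper96.Stmt
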