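import Pool.Agent.Helper10.Stmt.Conv
import Pool.Agent.Helper10.RK.Main
import Pool.Agent.Helper96.RKF.DefsL
import Pool.Agent.Helper96.RKF.Stmt

/-! Conversion between the definitions of `Helper96/RKF/Stmt.lean` and the internal ones, and the theorem
RKF in the form of the hand-ins. -/

open Complex Set
open scoped Manifold ContDiff ComplexConjugate ComplexOrder Topology

namespace Pool.Agent.Helper96.RKF

open Pool.Agent Pool.Agent.Helper10.Stmt

universe u v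

section

variable {n : ℕ} {X : Type v} [TopologicalSpace X] [ChartedSpace (Fin n → ℂ) X]

theorem corankL_iff {k : ℕ} {v : X → ℝ} :
    Helper96.Stmt.SemiposCorank n k X v ↔ Helper10.RK.SemiposCorankK n k X v := Iff.rfl

theorem bisecL_iff {g : X → Matrix (Fin n) (Fin n) ℂ} {v : X → ℝ} :
    Helper96.Stmt.LeafBisecNonpos n X g v ↔ GNegL n X g v := Iff.rfl

theorem hscL_iff {g : X → Matrix (Fin n) (Fin n) ℂ} {v : X → ℝ} :
    Helper96.Stmt.LeafHSCNonpos n X g v ↔ HNegL n X g v := Iff.rfl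

theorem negL_of {g : X → Matrix (Fin n) (Fin n) ℂ} {v : X → ℝ}
    (h : Helper96.Stmt.LeafNonpos n X g v) :
    Helper95.RK.HermMetric n X g ∧ (GNegL n X g v ∨
      Helper16.Abund.KahlerMetric n X g ∧ HNegL n X g v) := by
  rcases h with h | h
  · exact ⟨h.1, Or.inl h.2⟩
  · exact ⟨⟨h.1.1, fun V ψ hψ => (h.1.2 V ψ hψ).1⟩, Or.inr ⟨h.1, h.2⟩⟩

end

theorem orb_of_mainrkl (hF : S_FRONTL.{u, v}) (hM : Helper10.RK.S_MAINRK.{u, v}) {n k : ℕ}
    (hk : 0 < k) (hn : k < n) {G : Type u} {M : Type v} [Group G] [MulAction G M]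
    [TopologicalSpace M] [T2Space M] [ConnectedSpace M] [ChartedSpace (Fin n → ℂ) M]
    [IsManifold 𝓘(ℂ, Fin n → ℂ) ω M] (hact : Helper92.Orb.OrbAction n G M)
    (hprop : ∀ K : Set M, IsCompact K → {γ : G | ∃ y ∈ K, γ • y ∈ K}.Finite)
    {h : M → Matrix (Fin n) (Fin n) ℂ} (hh : Helper16.Abund.KahlerMetric n M h)
    (hinv : ∀ γ : G, Helper92.Orb.InvMetric n h (fun y : M => γ • y))
    {v : M → ℝ} (hv : Helper10.SP.CanMetric n M v)
    (hvinv : ∀ (γ : G) (x : M), v (γ • x) * ‖Helper16.Abund.jac n (fun y : M => γ • y) x‖ ^ 2 = v x)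
    (hr : Helper10.RK.SemiposCorankK n k M v) {g : M → Matrix (Fin n) (Fin n) ℂ}
    (hg : Helper95.RK.HermMetric n M g)
    (hginv : ∀ γ : G, Helper92.Orb.InvMetric n g (fun y : M => γ • y))
    (hneg : GNegL n M g v ∨ Helper16.Abund.KahlerMetric n M g ∧ HNegL n M g v) :
    Helper92.Orb.OrbSemiample n G M := by
  obtain ⟨b, rfl⟩ : ∃ b, n = b + k := ⟨n - k, by omega⟩
  have hD : Helper95.RK.DataK b k G M h v := ⟨hact, hprop, hh, hinv, hv, hvinv, hr⟩
  exact hM (by omega) hD (hF hk hD ⟨hg, hginv, hneg⟩)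

theorem orb_semiampleL {n k : ℕ} (hF : S_FRONTL.{u, v}) (hM : Helper10.RK.S_MAINRK.{u, v})
    (hk : 0 < k) (hn : k < n) {G : Type u} {M : Type v} [Group G] [MulAction G M]
    [TopologicalSpace M] [T2Space M] [ConnectedSpace M] [ChartedSpace (Fin n → ℂ) M]
    [IsManifold 𝓘(ℂ, Fin n → ℂ) ω M] (hact : ProperCocompact n G M)
    {h : M → Matrix (Fin n) (Fin n) ℂ} (hh : KahlerMetric n M h)
    (hinv : ∀ γ : G, InvMetric n h (fun y : M => γ • y))
    {v : M → ℝ} (hv : CanMetric n M v)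
    (hvinv : ∀ (γ : G) (x : M), v (γ • x) * ‖jac n (fun y : M => γ • y) x‖ ^ 2 = v x)
    (hr : Helper96.Stmt.SemiposCorank n k M v)
    {g : M → Matrix (Fin n) (Fin n) ℂ} (hg : Helper96.Stmt.LeafNonpos n M g v)
    (hginv : ∀ γ : G, InvMetric n g (fun y : M => γ • y)) : OrbSemiample n G M := by
  obtain ⟨h1, h2⟩ := negL_of hg
  exact orb_iff.2 (orb_of_mainrkl hF hM hk hn ⟨hact.1, hact.2.1, hact.2.2.2⟩
    hact.2.2.1 (kahler_iff.1 hh) (fun γ => inv_iff.1 (hinv γ)) (can_iff.1 hv) hvinv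
    (corankL_iff.1 hr) h1 (fun γ => inv_iff.1 (hginv γ)) h2)

/-- The trivial action on a compact manifold. -/
theorem can_of_orb {n : ℕ} {X : Type v} [TopologicalSpace X] [CompactSpace X]
    [ChartedSpace (Fin n → ℂ) X]
    (H : ∀ (G : Type) [Group G] [MulAction G X], ProperCocompact n G X →
      (∀ g : X → Matrix (Fin n) (Fin n) ℂ, ∀ γ : G, InvMetric n g (fun y : X => γ • y)) →
      (∀ v : X → ℝ, ∀ (γ : G) (x : X), v (γ • x) * ‖jac n (fun y : X => γ • y) x‖ ^ 2 = v x) →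
      OrbSemiample n G X) : CanSemiample n X := by
  let i : MulAction Unit X :=
    { smul := fun _ x => x
      one_smul := fun _ => rfl
      mul_smul := fun _ _ _ => rfl }
  have key : ∀ (G : Type) [Group G] [Finite G] [MulAction G X],
      (∀ γ : G, (fun y : X => γ • y) = id) → OrbSemiample n G X := by
    intro G _ _ _ hid
    have hsm : ∀ (γ : G) (x : X), γ • x = x := fun γ x => congrFun (hid γ) x
    have hmd : ∀ x : X, mfderiv 𝓘(ℂ, Fin n → ℂ) 𝓘(ℂ, Fin n → ℂ) (id : X → X) x =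
        ContinuousLinearMap.id ℂ (TangentSpace 𝓘(ℂ, Fin n → ℂ) x) := fun x => mfderiv_id
    refine H G ⟨fun γ => ?_, fun x => ⟨univ, Filter.univ_mem, Set.toFinite _⟩,
      fun K _ => Set.toFinite _, ⟨univ, isCompact_univ, fun x => ⟨1, mem_univ _⟩⟩⟩ ?_ ?_
    · rw [hid γ]
      exact mdifferentiable_id
    · intro h γ x u w
      rw [hid γ]
      show herm (h x) (mfderiv 𝓘(ℂ, Fin n → ℂ) 𝓘(ℂ, Fin n → ℂ) (id : X → X) x u)
        (mfderiv 𝓘(ℂ, Fin n → ℂ) 𝓘(ℂ, Fin n → ℂ) (id : X → X) x w) = _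
      rw [hmd x]
      rfl
    · intro v γ x
      have : jac n (fun y : X => γ • y) x = 1 := by
        rw [hid γ]
        show ContinuousLinearMap.det (mfderiv 𝓘(ℂ, Fin n → ℂ) 𝓘(ℂ, Fin n → ℂ) (id : X → X) x) = 1
        rw [hmd x]
        exact LinearMap.det_id
      rw [this, hsm γ x]
      simp
  obtain ⟨r, hr1, hr2⟩ := @key Unit _ _ i fun _ => rfl
  refine ⟨r, hr1, fun x => ?_⟩
  obtain ⟨c, hc1, hc2⟩ := hr2 x
  exact ⟨c, hc1.1, hc2⟩

end Pool.Agent.Helper96.RKF
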